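import Pool.Agent.P.MP_5e147a_al.H31.Sides

/-! Existence of a side for every prime, and the extension step. -/

set_option autoImplicit false

namespace Pool.Agent.P.MP_5e147a_al.H31

open Equiv Sum
open H16 hiding Tok exists_tok uA vB lA lB uA_main vB_main lA_main lB_main Main Main' main_A main_B
  main_j lA_nonmain lB_nonmain nuA nuB W2 W2_j Wm morMain morMain_inj Z0 W3 fix_nonmain morDeep
  morDeep_inj LiftData side equalize Alpha glue solve alpha_of exists_odo exists_alpha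

variable {F : Type} [Group F] {A B : Subgroup F} {pa pb : ℕ}

theorem alpha_of (hA : IsPGroup pa A) (g : F) {O Y : Type} [Finite O] (ρ : F →* Perm O)
    (hρ : ∀ f ω, ρ f ω = ω → f = 1) (p : O → Prop) (hp : ∀ (x : A) ω, p (ρ x ω) ↔ p ω)
    (σ : B →* Perm Y) (hσ : ∀ y η, σ y η = η → y = 1) (b : Perm (O ⊕ Y))
    (hb : PG pb (fun y : B => Perm.sumCongr (ρ y) (σ y)) b)
    (h1 : ∀ ω, p ω → b (inl ω) = inl (ρ g ω)) (h2 : ∀ ω, ¬p ω → ∃ η, b (inl ω) = inr η)
    (h3 : ∀ η, ∃ ω, ¬p ω ∧ b (inr η) = inl (ρ g ω)) :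
    ∃ W : Wall A B, W.X = {ω // ¬p ω} ∧ Nonempty (Alpha pa pb g W) := by
  classical
  choose f2 hf2 using h2
  choose f3 hf3 hf3' using h3
  have b2 : Function.Bijective (fun ξ : {ω // ¬p ω} => f2 ξ.1 ξ.2) := by
    constructor
    · intro ξ ξ' h
      have : b (inl ξ.1) = b (inl ξ'.1) := by rw [hf2 _ ξ.2, hf2 _ ξ'.2]; exact congrArg inr h
      exact Subtype.ext (inl.inj (b.injective this))
    · intro η
      obtain ⟨z, hz⟩ := b.surjective (inr η)
      rcases z with ω | η'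
      · by_cases h : p ω
        · rw [h1 ω h] at hz
          exact absurd hz inl_ne_inr
        · rw [hf2 ω h] at hz
          exact ⟨⟨ω, h⟩, inr.inj hz⟩
      · rw [hf3'] at hz
        exact absurd hz inl_ne_inr
  have b3 : Function.Bijective (fun η : Y => (⟨f3 η, hf3 η⟩ : {ω // ¬p ω})) := by
    constructor
    · intro η η' h
      have h' : f3 η = f3 η' := congrArg Subtype.val h
      have : b (inr η) = b (inr η') := by rw [hf3', hf3', h']
      exact inr.inj (b.injective this)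
    · intro ξ
      obtain ⟨z, hz⟩ := b.surjective (inl (ρ g ξ.1))
      rcases z with ω | η
      · by_cases h : p ω
        · rw [h1 ω h] at hz
          rw [(ρ g).injective (inl.inj hz)] at h
          exact absurd h ξ.2
        · rw [hf2 ω h] at hz
          exact absurd hz inr_ne_inl
      · rw [hf3'] at hz
        exact ⟨η, Subtype.ext ((ρ g).injective (inl.inj hz))⟩
  let W : Wall A B :=
    { X := {ω // ¬p ω}
      Y := Y
      fin := inferInstance
      ρA := subHom (ρ.comp A.subtype) _ fun x ω => not_congr (hp x ω)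
      ρB := σ
      j := fun i => cond i (Equiv.ofBijective _ b3).symm (Equiv.ofBijective _ b2)
      freeA := fun x ξ h => Subtype.ext (hρ x ξ.1 (congrArg Subtype.val h))
      freeB := hσ }
  let e : {ω // p ω} ⊕ {ω // ¬p ω} ≃ O := Equiv.sumCompl p
  let ρ' : F →* Perm ({ω // p ω} ⊕ {ω // ¬p ω}) := e.symm.permCongrHom.toMonoidHom.comp ρ
  have hρ' : ∀ f z, e (ρ' f z) = ρ f (e z) := fun f z => e.apply_symm_apply _
  let e' : ({ω // p ω} ⊕ {ω // ¬p ω}) ⊕ Y ≃ O ⊕ Y := Equiv.sumCongr e (Equiv.refl Y)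
  have hb' : ∀ z w, b (e' z) = e' w → e'.symm.permCongr b z = w := by
    intro z w h
    show e'.symm (b (e' z)) = w
    rw [h, Equiv.symm_apply_apply]
  refine ⟨W, rfl, ⟨⟨{ω // p ω}, inferInstance, ρ', ?_, subHom (ρ.comp A.subtype) _ hp, ?_, ?_, 1,
    PG.of_hom hA _, e'.symm.permCongr b, ?_, ?_, ?_, ?_⟩⟩⟩
  · intro f z h
    exact hρ f (e z) ((hρ' f z).symm.trans (congrArg e h))
  · intro x τ
    exact e.injective (hρ' x (inl τ))
  · intro x ξ
    exact e.injective (hρ' x (inr ξ))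
  · intro τ
    apply hb'
    exact (h1 τ.1 τ.2).trans (congrArg inl (hρ' g (inl τ)).symm)
  · intro ξ
    apply hb'
    exact hf2 ξ.1 ξ.2
  · intro ξ
    apply hb'
    obtain ⟨η, rfl⟩ := b3.2 ξ
    have : W.j true ⟨f3 η, hf3 η⟩ = η := (Equiv.ofBijective _ b3).symm_apply_apply η
    refine Eq.trans ?_ (congrArg inl (hρ' g (inr ⟨f3 η, hf3 η⟩)).symm)
    exact (congrArg (fun w => b (inr w)) this).trans (hf3' η)
  · refine hb.of_equiv e' ?_ ?_
    · rintro y (z | η)
      · exact congrArg inl (hρ' y z)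
      · rfl
    · intro z
      exact e'.apply_symm_apply _

/-- Translations of `ZMod n`. -/
def trs (n : ℕ) : Subgroup (Perm (ZMod n)) where
  carrier := {σ | ∃ c, ∀ u, σ u = u + c}
  one_mem' := ⟨0, fun u => by simp⟩
  mul_mem' := by
    rintro σ τ ⟨c, hc⟩ ⟨d, hd⟩
    exact ⟨d + c, fun u => by simp [hc, hd, add_assoc]⟩
  inv_mem' := by
    rintro σ ⟨c, hc⟩
    exact ⟨-c, fun u => by rw [Perm.inv_eq_iff_eq, hc]; simp⟩

theorem trs_p (n : ℕ) : IsPGroup n (trs n) := by
  rintro ⟨σ, c, hc⟩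
  have h : ∀ (k : ℕ) u, (σ ^ k) u = u + k * c := by
    intro k
    induction k with
    | zero => simp
    | succ k ih =>
      intro u
      rw [pow_succ', Perm.mul_apply, hc, ih]
      push_cast
      ring
  refine ⟨1, Subtype.ext (Equiv.ext fun u => ?_)⟩
  show (σ ^ n ^ 1) u = u
  simp [h]

theorem par_succ {k : ℕ} (u : ZMod (2 * k + 3)) (hu : u ≠ -1) :
    decide ((u + 1).val % 2 = 1) = !decide (u.val % 2 = 1) := by
  have : Fact (1 < 2 * k + 3) := ⟨by omega⟩
  have h1 := u.val_lt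
  have h2 : u.val ≠ 2 * k + 2 := fun h => hu (ZMod.val_injective _ (h.trans (ZMod.val_neg_one _).symm))
  rw [ZMod.val_add_of_lt (by rw [ZMod.val_one]; omega), ZMod.val_one]
  rcases Nat.mod_two_eq_zero_or_one u.val with h | h <;> simp [h, Nat.add_mod]

theorem exists_odo (k n : ℕ) [Fact (2 * k + 3).Prime] : ∃ (Z : Type) (_ : Finite Z)
    (K : Subgroup (Perm Z)) (od : (ℕ → Bool) → Perm Z) (src : (ℕ → Bool) → Z) (col : Z → Bool),
    IsPGroup (2 * k + 3) K ∧
    (∀ ε, od ε ∈ K) ∧ (∀ ε, col (src ε) = false) ∧ (∀ ε, od ε (src ε) = src fun i => !ε i) ∧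
    (∀ ε z, z ≠ src ε → col (od ε z) = !col z) ∧
    (∀ ε ε', src ε = src ε' → ∀ i < n, ε i = ε' i) ∧ Nat.card Z = (2 * k + 3) ^ n := by
  classical
  induction n with
  | zero =>
    exact ⟨Unit, inferInstance, ⊥, fun _ => 1, fun _ => (), fun _ => false, IsPGroup.of_bot,
      fun _ => Subgroup.one_mem _, fun _ => rfl, fun _ => rfl, fun _ _ h => absurd rfl h,
      fun _ _ _ i hi => absurd hi (Nat.not_lt_zero i), by simp⟩
  | succ n ih =>
    obtain ⟨Z, _, K, od, src, col, hK, h1, h2, h3, h4, h5, h6⟩ := ih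
    refine ⟨Z × ZMod (2 * k + 3), inferInstance, Sk K (trs _),
      fun ε => Equiv.prodShear (od ε) fun z =>
        Equiv.addRight (if z = src ε then cond (ε n) 1 (-1) else 0),
      fun ε => (src ε, cond (ε n) (-1) 0), fun z => xor (col z.1) (decide (z.2.val % 2 = 1)),
      isPGroup_Sk hK (trs_p _), fun ε => shear_mem_Sk (h1 ε) fun z => ⟨_, fun _ => rfl⟩,
      ?_, ?_, ?_, ?_, ?_⟩
    · intro ε
      show xor (col (src ε)) (decide ((cond (ε n) (-1 : ZMod (2 * k + 3)) 0).val % 2 = 1)) = false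
      rw [h2]
      cases ε n
      · simp
      · have : (-1 : ZMod (2 * k + 3)).val = 2 * k + 2 := ZMod.val_neg_one _
        simp only [cond_true, this, Bool.false_xor, decide_eq_false_iff_not]
        omega
    · intro ε
      show (od ε (src ε), cond (ε n) (-1 : ZMod (2 * k + 3)) 0 +
        if src ε = src ε then cond (ε n) 1 (-1) else 0)
        = (src fun i => !ε i, cond (!ε n) (-1 : ZMod (2 * k + 3)) 0)
      rw [h3, if_pos rfl]
      cases ε n <;> simp
    · rintro ε ⟨z, u⟩ hz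
      show xor (col (od ε z))
        (decide ((u + (if z = src ε then cond (ε n) 1 (-1) else 0)).val % 2 = 1)) =
        !(xor (col z) (decide (u.val % 2 = 1)))
      by_cases h : z = src ε
      · subst h
        have hu : u ≠ cond (ε n) (-1) 0 := fun h => hz (by rw [h])
        rw [if_pos rfl, h3, h2, h2, Bool.false_xor, Bool.false_xor]
        revert hu
        cases ε n
        · intro hu
          have := par_succ (u + -1) fun h => hu (by simpa using h)
          rw [neg_add_cancel_right] at this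
          rw [this, Bool.not_not]
          rfl
        · exact par_succ u
      · rw [if_neg h, h4 ε z h, add_zero]
        cases col z <;> cases decide (u.val % 2 = 1) <;> rfl
    · intro ε ε' h i hi
      rcases Nat.lt_succ_iff_lt_or_eq.1 hi with hi | rfl
      · exact h5 ε ε' (Prod.ext_iff.1 h).1 i hi
      · have h' : cond (ε i) (-1 : ZMod (2 * k + 3)) 0 = cond (ε' i) (-1) 0 :=
          (Prod.ext_iff.1 h).2
        revert h'
        cases ε i <;> cases ε' i <;> simp
    · rw [Nat.card_prod, h6, pow_succ]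
      simp

theorem exists_odd [Finite F] {k : ℕ} [Fact (2 * k + 3).Prime] (hA : IsPGroup pa A)
    (hB : IsPGroup (2 * k + 3) B) (g : F) (h : Gen A B g) :
    ∃ W : Wall A B, Nonempty W.X ∧ Nonempty (Alpha pa (2 * k + 3) g W) := by
  classical
  obtain ⟨Z, _, K, od, src, col, hK, h1, h2, h3, h4, h5, h6⟩ := exists_odo k (Nat.card F + 1)
  let idx : B → ℕ := fun y => (Finite.equivFin B y : ℕ)
  have hidx : ∀ y, idx y + 1 < Nat.card F + 1 := fun y =>
    Nat.succ_lt_succ (lt_of_lt_of_le (Finite.equivFin B y).2 (Subgroup.card_le_card_group B))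
  have hidx' : Function.Injective idx := fun y y' h => (Finite.equivFin B).injective (Fin.ext h)
  let ε : B → ℕ → Bool := fun y i => decide (i = 0 ∨ i = idx y + 1)
  let sg : B × Bool → Z := fun c => src fun i => xor c.2 (ε c.1 i)
  have hsg : Function.Injective sg := by
    rintro ⟨y, c⟩ ⟨y', c'⟩ h
    have a0 := h5 _ _ h 0 (Nat.succ_pos _)
    have a1 := h5 _ _ h _ (hidx y)
    simp only [ε, true_or, decide_true] at a0
    have hc : c = c' := by revert a0; cases c <;> cases c' <;> decide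
    subst hc
    simp only [ε, or_true, decide_true, Bool.xor_right_inj] at a1
    have a2 : idx y + 1 = 0 ∨ idx y + 1 = idx y' + 1 := of_decide_eq_true a1.symm
    rcases a2 with a2 | a2
    · exact absurd a2 (Nat.succ_ne_zero _)
    · rw [hidx' (Nat.succ_injective a2)]
  have hsg0 : ∀ y, sg (y, false) = src (ε y) := fun y => by simp [sg]
  have hsg1 : ∀ y, od (ε y) (sg (y, false)) = sg (y, true) := fun y => by
    rw [hsg0, h3]
    simp [sg]
  have hcard : Nat.card F ≤ Nat.card {z // col z = false} := by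
    have c1 : Nat.card {z // ¬col z = false} ≤ Nat.card {z // col z = false} := by
      refine Nat.card_le_card_of_injective (fun z => ⟨od (fun _ => true) z.1, ?_⟩) ?_
      · rw [h4 _ _ fun h => z.2 (by rw [h, h2])]
        simpa using z.2
      · intro z z' h
        exact Subtype.ext ((od _).injective (congrArg Subtype.val h))
    have c2 := Nat.card_congr (Equiv.sumCompl fun z => col z = false)
    rw [Nat.card_sum, h6, pow_succ] at c2
    have c3 : Nat.card F < (2 * k + 3) ^ Nat.card F := Nat.lt_pow_self (by omega)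
    have c4 := Nat.mul_le_mul_left ((2 * k + 3) ^ Nat.card F) (show 2 ≤ 2 * k + 3 by omega)
    omega
  obtain ⟨emb⟩ : Nonempty (F ↪ {z // col z = false}) := by
    have := Fintype.ofFinite F
    have := Fintype.ofFinite {z // col z = false}
    apply Function.Embedding.nonempty_of_card_le
    simpa [Nat.card_eq_fintype_card] using hcard
  let O := (A × {z // col z = false} × B) × F
  let R := ((A × F) × B) × Z
  let ρ : F →* Perm O :=
    { toFun := fun f => Equiv.prodCongr (Equiv.refl _) (Equiv.mulLeft f)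
      map_one' := by ext1 ⟨i, f⟩; exact Prod.ext rfl (one_mul f)
      map_mul' := fun f f' => by ext1 ⟨i, f0⟩; exact Prod.ext rfl (mul_assoc f f' f0) }
  have hρ : ∀ f ω, ρ f ω = ω → f = 1 := by
    rintro f ⟨i, f0⟩ h
    have h' : f * f0 = f0 := (Prod.ext_iff.1 h).2
    simpa using h'
  let σ0 : B →* Perm ((A × F) × B) :=
    { toFun := fun f => Equiv.prodCongr (Equiv.refl _) (Equiv.mulLeft f)
      map_one' := by ext1 ⟨i, f⟩; exact Prod.ext rfl (one_mul f)
      map_mul' := fun f f' => by ext1 ⟨i, f0⟩; exact Prod.ext rfl (mul_assoc f f' f0) }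
  let σ : B →* Perm R := fstHom σ0 Z
  have hσ : ∀ f ω, σ f ω = ω → f = 1 := by
    rintro f ⟨⟨i, f0⟩, z⟩ h
    have h' : f * f0 = f0 := (Prod.ext_iff.1 (Prod.ext_iff.1 h).1).2
    simpa using h'
  let bR : Perm R := Equiv.prodShear 1 fun c => od (ε c.2)
  have hR : PG (2 * k + 3) (fun y => σ y) bR :=
    (PG.of_hom hB σ0).skew hK (fun _ _ _ => rfl) (fun c => od (ε c.2)) (fun _ => h1 _)
      (fun _ _ => rfl)
  let c0 : R → Prop := fun r => col r.2 = false
  let σ1 : B →* Perm {r // c0 r} := subHom σ c0 fun _ _ => Iff.rfl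
  let σ2 : B →* Perm {r // ¬c0 r} := subHom σ _ fun _ _ => Iff.rfl
  let pp : (F × B × A) × Bool → O := fun i =>
    ((1, emb i.1.1, i.1.2.1), cond i.2 (g * i.1.2.2) i.1.2.2)
  let qq : (F × B × A) × Bool → {r // c0 r} := fun i =>
    ⟨(((i.1.2.2, i.1.1), i.1.2.1), sg (i.1.2.1, i.2)), h2 _⟩
  obtain ⟨φ, hφ, hφ'⟩ := exists_matching (⊥ : Subgroup B) (ρ.comp B.subtype) σ1
    (fun s x => ⟨fun h => Subtype.ext (hρ s x h), fun h => by rw [Subgroup.mem_bot.1 h]; simp⟩)
    (fun s x => ⟨fun h => hσ s x.1 (congrArg Subtype.val h),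
      fun h => by rw [Subgroup.mem_bot.1 h]; simp⟩)
    (by
      have e : {r // c0 r} ≃ ((A × F) × B) × {z // col z = false} :=
        { toFun := fun r => (r.1.1, ⟨r.1.2, r.2⟩)
          invFun := fun w => ⟨(w.1, w.2.1), w.2.2⟩
          left_inv := fun _ => rfl
          right_inv := fun _ => rfl }
      rw [Nat.card_congr e]
      simp only [O, Nat.card_prod]
      ring) pp qq
    (by
      rintro ⟨⟨f, y, x⟩, c⟩ ⟨⟨f', y', x'⟩, c'⟩ s hs
      have a1 : ((1 : A), emb f', y') = (1, emb f, y) := (Prod.ext_iff.1 hs).1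
      have a2 : cond c' (g * x') x' = s * cond c (g * x) x := (Prod.ext_iff.1 hs).2
      obtain rfl : f' = f := emb.injective (Prod.ext_iff.1 (Prod.ext_iff.1 a1).2).1
      obtain rfl : y' = y := (Prod.ext_iff.1 (Prod.ext_iff.1 a1).2).2
      cases c <;> cases c' <;> simp only [cond_true, cond_false] at a2
      · have := h.h1 (x' * x⁻¹) s 1 (by simp [a2])
        rw [mul_inv_eq_one.1 this]
      · exact absurd (by rw [Subgroup.coe_mul, ← mul_assoc, ← a2]; simp) (h.h2 (x * x'⁻¹) s)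
      · exact absurd (by rw [Subgroup.coe_mul, a2]; simp [mul_assoc]) (h.h2 (x' * x⁻¹) s⁻¹)
      · have := h.h1 (x' * x⁻¹) s g (by
          rw [Subgroup.coe_mul, ← mul_assoc, a2]; simp [mul_assoc])
        rw [mul_inv_eq_one.1 this])
    (by
      rintro ⟨⟨f, y, x⟩, c⟩ ⟨⟨f', y', x'⟩, c'⟩ s hs
      have a0 := congrArg Subtype.val hs
      have a1 : (x', f') = (x, f) := (Prod.ext_iff.1 (Prod.ext_iff.1 a0).1).1
      have a2 := hsg (show sg (y', c') = sg (y, c) from (Prod.ext_iff.1 a0).2)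
      obtain ⟨rfl, rfl⟩ := Prod.ext_iff.1 a1
      obtain ⟨rfl, rfl⟩ := Prod.ext_iff.1 a2
      rfl)
  let Φ : O ⊕ {r // ¬c0 r} ≃ R := (Equiv.sumCongr φ (Equiv.refl _)).trans (Equiv.sumCompl c0)
  have hb' : ∀ z w, bR (Φ z) = Φ w → Φ.symm.permCongr bR z = w := by
    intro z w h
    show Φ.symm (bR (Φ z)) = w
    rw [h, Equiv.symm_apply_apply]
  have hq : ∀ i, bR (qq (i, false)).1 = (qq (i, true)).1 := fun i => Prod.ext rfl (hsg1 _)
  obtain ⟨W, hα, α⟩ := alpha_of hA g ρ hρ (fun ω => ∃ i, ω = pp (i, false))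
    (by
      have aux : ∀ (x : A) ω, (∃ i, ω = pp (i, false)) → ∃ i, ρ x ω = pp (i, false) := by
        rintro x _ ⟨⟨f, y, x'⟩, rfl⟩
        exact ⟨(f, y, x * x'), rfl⟩
      refine fun x ω => ⟨fun h => ?_, aux x ω⟩
      simpa using aux x⁻¹ _ h)
    σ2 (fun y η h => hσ y η.1 (congrArg Subtype.val h)) (Φ.symm.permCongr bR)
    (by
      refine hR.of_equiv Φ ?_ (fun z => Φ.apply_symm_apply _)
      rintro y (ω | η)
      · exact congrArg Subtype.val (hφ y ω)
      · rfl)
    (by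
      rintro _ ⟨i, rfl⟩
      apply hb'
      show bR (φ (pp (i, false))).1 = (φ (pp (i, true))).1
      rw [hφ', hφ', hq])
    (by
      intro ω hω
      have a1 : (φ ω).1.2 ≠ src (ε (φ ω).1.1.2) := by
        intro h
        apply hω
        refine ⟨((φ ω).1.1.1.2, (φ ω).1.1.2, (φ ω).1.1.1.1), φ.injective ?_⟩
        rw [hφ']
        exact Subtype.ext (Prod.ext rfl (h.trans (hsg0 _).symm))
      refine ⟨⟨bR (φ ω).1, ?_⟩, hb' _ _ rfl⟩
      show ¬col (od (ε (φ ω).1.1.2) (φ ω).1.2) = false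
      rw [h4 _ _ a1, show col (φ ω).1.2 = false from (φ ω).2]
      decide)
    (by
      intro η
      have a1 : η.1.2 ≠ src (ε η.1.1.2) := fun h => η.2 (by show col η.1.2 = false; rw [h, h2])
      have a2 : c0 (bR η.1) := by
        show col (od (ε η.1.1.2) η.1.2) = false
        rw [h4 _ _ a1]
        simpa [c0] using η.2
      obtain ⟨ω', hω'⟩ := φ.surjective ⟨bR η.1, a2⟩
      obtain ⟨ω, rfl⟩ := (ρ g).surjective ω'
      refine ⟨ω, ?_, hb' _ _ (congrArg Subtype.val hω').symm⟩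
      rintro ⟨i, rfl⟩
      have a3 : (φ (pp (i, true))).1 = bR η.1 := congrArg Subtype.val hω'
      rw [hφ', ← hq] at a3
      exact η.2 (by rw [← bR.injective a3]; exact (qq (i, false)).2))
  refine ⟨W, ?_, α⟩
  rw [hα]
  refine ⟨⟨pp ((1, 1, 1), true), ?_⟩⟩
  rintro ⟨⟨f, y, x⟩, e⟩
  have e' : g * (1 : A) = x := (Prod.ext_iff.1 e).2
  exact h.h2 x 1 (by simpa using e')

theorem exists_two [Finite F] (hA : IsPGroup pa A) (hB : IsPGroup 2 B) (g : F) :
    ∃ W : Wall A B, Nonempty W.X ∧ Nonempty (Alpha pa 2 g W) := by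
  let ρ := MulAction.toPermHom F F
  have hfree : ∀ f ω, ρ f ω = ω → f = 1 := fun f ω h => by
    have h' : f * ω = ω := h
    simpa using h'
  obtain ⟨W, hα, α⟩ := alpha_of (pb := 2) hA g ρ hfree (fun _ => False) (fun _ _ => Iff.rfl)
    (ρ.comp B.subtype) (fun y ξ h => Subtype.ext (hfree y ξ h)) (Equiv.sumComm F F)
    (by
      have hD : IsPGroup 2 (⊤ : Subgroup (Perm Bool)) :=
        IsPGroup.of_card (n := 1) (by simp [Fintype.card_perm])
      refine PG.of_equiv ((PG.of_hom hB (ρ.comp B.subtype)).skew hD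
        (ρ' := fun x : B => Equiv.prodCongr (ρ x) (Equiv.refl Bool))
        (a' := Equiv.prodCongr (Equiv.refl F) (Equiv.swap false true)) (fun _ _ _ => rfl)
        (fun _ => Equiv.swap false true) (fun _ => Subgroup.mem_top _) (fun _ _ => rfl))
        ((Equiv.boolProdEquivSum F).symm.trans (Equiv.prodComm _ _)) ?_ ?_
      · rintro x (ξ | ξ) <;> rfl
      · rintro (ξ | ξ) <;> rfl)
    (fun _ h => h.elim) (fun ω _ => ⟨ω, rfl⟩)
    (fun η => ⟨g⁻¹ * η, id, congrArg inl (mul_inv_cancel_left g η).symm⟩)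
  exact ⟨W, by rw [hα]; exact ⟨⟨1, id⟩⟩, α⟩

theorem exists_alpha [Finite F] [hp : Fact pb.Prime] (hA : IsPGroup pa A) (hB : IsPGroup pb B)
    (g : F) (h : Gen A B g) : ∃ W : Wall A B, Nonempty W.X ∧ Nonempty (Alpha pa pb g W) := by
  rcases hp.out.eq_two_or_odd with rfl | h1
  · exact exists_two hA hB g
  · have := hp.out.two_le
    obtain ⟨k, rfl⟩ : ∃ k, pb = 2 * k + 3 := ⟨(pb - 3) / 2, by omega⟩
    exact exists_odd hA hB g h

/-- The extension step. -/
theorem step [Finite F] (hpa : pa.Prime) (hpb : pb.Prime) (hne : pa ≠ pb) (hA : IsPGroup pa A)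
    (hB : IsPGroup pb B) (g : F) :
    ∃ (Ω : Type) (_ : Finite Ω) (ρ : F →* Perm Ω) (P Q : Subgroup (Perm Ω)),
      Function.Injective ρ ∧ IsPGroup pa P ∧ IsPGroup pb Q ∧ (∀ x ∈ A, ρ x ∈ P) ∧
      (∀ y ∈ B, ρ y ∈ Q) ∧ ∃ b ∈ Q, ∃ a ∈ P, ρ g = b * a := by
  have := Fact.mk hpa
  have := Fact.mk hpb
  by_cases h : ∃ b ∈ B, ∃ a ∈ A, g = b * a
  · obtain ⟨b, hb, a, ha, rfl⟩ := h
    exact ⟨F, inferInstance, MulAction.toPermHom F F, A.map _, B.map _, MulAction.toPerm_injective,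
      hA.map _, hB.map _, fun x hx => ⟨x, hx, rfl⟩, fun x hx => ⟨x, hx, rfl⟩, _, ⟨b, hb, rfl⟩, _,
      ⟨a, ha, rfl⟩, map_mul _ _ _⟩
  have hgen : Gen A B g := by
    refine ⟨fun x y f hf => ?_, fun x y hg => h ⟨y, y.2, x, x.2, hg⟩⟩
    obtain ⟨m, hm⟩ := hA x
    obtain ⟨n, hn⟩ := hB y
    have h1 : (x : F) = f⁻¹ * y * f⁻¹⁻¹ := by rw [inv_inv, mul_assoc, hf]; simp
    have h2 : x ^ pb ^ n = 1 := by
      apply Subtype.ext
      have h3 : (y : F) ^ pb ^ n = 1 := congrArg Subtype.val hn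
      rw [Subgroup.coe_pow, h1, conj_pow, h3]
      simp
    have h4 : Nat.Coprime (pa ^ m) (pb ^ n) :=
      Nat.Coprime.pow _ _ ((Nat.coprime_primes hpa hpb).2 hne)
    rw [← orderOf_eq_one_iff]
    exact Nat.eq_one_of_dvd_coprimes h4 (orderOf_dvd_of_pow_eq_one hm)
      (orderOf_dvd_of_pow_eq_one h2)
  obtain ⟨W, hW, ⟨α⟩⟩ := exists_alpha hA hB g hgen
  obtain ⟨V, hV, ⟨β⟩⟩ := exists_alpha hB hA g⁻¹ (Gen_symm hgen)
  obtain ⟨Ω, _, ρ, a, b, h1, h2, ⟨P, hP, h3, h4⟩, ⟨Q, hQ, h5, h6⟩⟩ := solve hgen α β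
  exact ⟨Ω, inferInstance, ρ, P, Q, h1, hP, hQ, fun x hx => h3 ⟨x, hx⟩, fun y hy => h5 ⟨y, hy⟩,
    b, h6, a, h4, h2.symm⟩

end Pool.Agent.P.MP_5e147a_al.H31
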