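import Pool.Agent.P.MP_5e147a_al.H31.Base

/-! The universal countable locally finite group and its factorisations. -/

set_option autoImplicit false

namespace Pool.Agent.P.MP_5e147a_al.H31

open Equiv

section factor
variable {U : Type} [Group U]

theorem extend (hu : ∀ (H : Type) [Group H] [Finite H], ∃ f : H →* U, Function.Injective f)
    (hh : ∀ H K : Subgroup U, Finite H → ∀ φ : H ≃* K, ∃ u : U, ∀ h : H, (φ h : U) = u * h * u⁻¹)
    (F : Subgroup U) [Finite F] {H : Type} [Group H] [Finite H] (ρ : F →* H)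
    (hρ : Function.Injective ρ) : ∃ j : H →* U, ∀ x : F, j (ρ x) = x := by
  obtain ⟨j, hj⟩ := hu H
  obtain ⟨u, h⟩ := hh F _ inferInstance (MonoidHom.ofInjective (f := j.comp ρ) (hj.comp hρ))
  refine ⟨(MulAut.conj u⁻¹).toMonoidHom.comp j, fun x => ?_⟩
  have : j (ρ x) = u * x * u⁻¹ := h x
  simp [this, mul_assoc]

theorem factor (hc : Countable U)
    (hl : ∀ s : Finset U, ((Subgroup.closure (s : Set U) : Subgroup U) : Set U).Finite)
    (hu : ∀ (H : Type) [Group H] [Finite H], ∃ f : H →* U, Function.Injective f)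
    (hh : ∀ H K : Subgroup U, Finite H → ∀ φ : H ≃* K, ∃ u : U, ∀ h : H, (φ h : U) = u * h * u⁻¹)
    {p q : ℕ} (hp : p.Prime) (hq : q.Prime) (hne : p ≠ q) :
    ∃ P Q : Subgroup U, IsPGroup p P ∧ IsPGroup q Q ∧ ∀ g : U, ∃ a ∈ P, ∃ b ∈ Q, g = a * b := by
  let S := {T : Subgroup U × Subgroup U //
    Finite T.1 ∧ Finite T.2 ∧ IsPGroup p T.1 ∧ IsPGroup q T.2}
  have st : ∀ (T : S) (g : U), ∃ T' : S, T.1.1 ≤ T'.1.1 ∧ T.1.2 ≤ T'.1.2 ∧
      ∃ a ∈ T'.1.1, ∃ b ∈ T'.1.2, g = a * b := by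
    rintro ⟨⟨A, B⟩, fA, fB, hA, hB⟩ g
    have hfin : (insert g ((A : Set U) ∪ B)).Finite :=
      ((Set.toFinite (A : Set U)).union (Set.toFinite (B : Set U))).insert g
    let F := Subgroup.closure (insert g ((A : Set U) ∪ B))
    have : Finite F := by
      have := hl hfin.toFinset
      rwa [Set.Finite.coe_toFinset] at this
    obtain ⟨Ω, _, ρ, Q, P, h1, hQ, hP, h2, h3, a, ha, b, hb, e⟩ :=
      step (A := B.subgroupOf F) (B := A.subgroupOf F) hq hp hne.symm hB.comap_subtype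
        hA.comap_subtype ⟨g, Subgroup.subset_closure (Set.mem_insert _ _)⟩
    obtain ⟨j, hj⟩ := extend hu hh F ρ h1
    have fin : ∀ K : Subgroup (Perm Ω), Finite (K.map j) := fun K =>
      (Set.toFinite (K : Set (Perm Ω))).image j
    refine ⟨⟨(P.map j, Q.map j), fin P, fin Q, hP.map j, hQ.map j⟩, fun x hx => ?_, fun x hx => ?_,
      j a, ⟨a, ha, rfl⟩, j b, ⟨b, hb, rfl⟩, by rw [← map_mul, ← e, hj]⟩
    · exact ⟨_, h3 ⟨x, Subgroup.subset_closure (Or.inr (Or.inl hx))⟩ hx, hj _⟩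
    · exact ⟨_, h2 ⟨x, Subgroup.subset_closure (Or.inr (Or.inr hx))⟩ hx, hj _⟩
  choose nx h1 h2 h3 using st
  obtain ⟨e, he⟩ := exists_surjective_nat U
  let T : ℕ → S := fun n => Nat.rec
    ⟨(⊥, ⊥), inferInstance, inferInstance, IsPGroup.of_bot, IsPGroup.of_bot⟩ (fun n t => nx t (e n)) n
  have up : ∀ (r : ℕ) (H : ℕ → Subgroup U), (∀ n, H n ≤ H (n + 1)) → (∀ n, IsPGroup r (H n)) →
      IsPGroup r (⨆ n, H n : Subgroup U) := by
    rintro r H a1 a2 ⟨x, hx⟩
    obtain ⟨n, hn⟩ := (Subgroup.mem_iSup_of_directed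
      (monotone_nat_of_le_succ a1).directed_le).1 hx
    obtain ⟨k, hk⟩ := a2 n ⟨x, hn⟩
    exact ⟨k, Subtype.ext (congrArg Subtype.val hk :)⟩
  refine ⟨⨆ n, (T n).1.1, ⨆ n, (T n).1.2, up p _ (fun n => h1 _ _) fun n => (T n).2.2.2.1,
    up q _ (fun n => h2 _ _) fun n => (T n).2.2.2.2, fun g => ?_⟩
  obtain ⟨n, rfl⟩ := he g
  obtain ⟨a, ha, b, hb, h⟩ := h3 (T n) (e n)
  exact ⟨a, Subgroup.mem_iSup_of_mem (n + 1) ha, b, Subgroup.mem_iSup_of_mem (n + 1) hb, h⟩

end factor

/-- A finite group. -/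
structure FG where
  G : Type
  grp : Group G
  fin : Finite G

instance (T : FG) : Group T.G := T.grp
instance (T : FG) : Finite T.G := T.fin

/-- The tower of symmetric groups. -/
def tw : ℕ → FG
  | 0 => ⟨Unit, inferInstance, inferInstance⟩
  | n + 1 => ⟨Perm ((tw n).G × Fin (n + 1)), inferInstance, inferInstance⟩

/-- The maps of the tower. -/
def tf (n : ℕ) : (tw n).G →* (tw (n + 1)).G :=
  H16.fstHom (MulAction.toPermHom (tw n).G (tw n).G) (Fin (n + 1))

theorem free_reg {G : Type} [Group G] (I : Type) (x : G) (z : G × I)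
    (h : H16.fstHom (MulAction.toPermHom G G) I x z = z) : x = 1 := by
  have h' : x * z.1 = z.1 := congrArg Prod.fst h
  simpa using h'

theorem tf_inj (n : ℕ) : Function.Injective (tf n) :=
  (injective_iff_map_eq_one _).2 fun x h => free_reg (Fin (n + 1)) x (1, 0)
    (congrArg (fun π : Perm ((tw n).G × Fin (n + 1)) => π (1, 0)) h)

theorem exists_limit : ∃ (U : Type) (_ : Group U) (ι : ∀ n, (tw n).G →* U),
    (∀ n, Function.Injective (ι n)) ∧ (∀ n x, ι (n + 1) (tf n x) = ι n x) ∧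
      ∀ z, ∃ n x, z = ι n x := by
  let φ : ∀ i j : ℕ, i ≤ j → ((tw i).G →* (tw j).G) := fun i _ h =>
    Nat.leRec (motive := fun j _ => (tw i).G →* (tw j).G) (MonoidHom.id _)
      (fun k _ ψ => (tf k).comp ψ) h
  have hself : ∀ i, φ i i le_rfl = MonoidHom.id _ := fun i => Nat.leRec_self _ _
  have hsucc : ∀ i j (h : i ≤ j), φ i (j + 1) (Nat.le_succ_of_le h) = (tf j).comp (φ i j h) :=
    fun i j h => Nat.leRec_succ _ _ h
  have hE : ∀ i j (h : i ≤ j), Function.Injective (φ i j h) := by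
    intro i j h
    induction j, h using Nat.le_induction with
    | base => rw [hself]; exact Function.injective_id
    | succ j h ih => rw [hsucc i j h]; exact (tf_inj j).comp ih
  have : DirectedSystem (fun n => (tw n).G) (fun i j h => φ i j h) := by
    constructor
    · intro i x
      rw [hself]
      rfl
    · intro k j i hij hjk x
      induction k, hjk using Nat.le_induction with
      | base => rw [hself]; rfl
      | succ k h ih =>
        rw [hsucc j k h, hsucc i k (hij.trans h)]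
        exact congrArg (tf k) ih
  refine ⟨DirectLimit (fun n => (tw n).G) φ, inferInstance, fun n =>
    { toFun := fun x => ⟦⟨n, x⟩⟧
      map_one' := (DirectLimit.one_def n).symm
      map_mul' := fun x y => (DirectLimit.mul_def (G := fun n => (tw n).G) (f := φ) n x y).symm },
    fun n => DirectLimit.mk_injective φ hE n, fun n x => ?_, fun z => DirectLimit.exists_eq_mk φ z⟩
  have := DirectLimit.mk_apply (F := fun n => (tw n).G) (f := φ) n (n + 1) x (Nat.le_succ n)
  rwa [hsucc n n le_rfl, hself] at this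

theorem exists_hall : ∃ (U : Type) (_ : Group U), Countable U ∧
    (∀ s : Finset U, ((Subgroup.closure (s : Set U) : Subgroup U) : Set U).Finite) ∧
    (∀ (H : Type) [Group H] [Finite H], ∃ f : H →* U, Function.Injective f) ∧
    ∀ H K : Subgroup U, Finite H → ∀ φ : H ≃* K, ∃ u : U, ∀ h : H, (φ h : U) = u * h * u⁻¹ := by
  obtain ⟨U, _, ι, hinj, hι, hsurj⟩ := exists_limit
  have mono : Monotone fun n => (ι n).range := monotone_nat_of_le_succ fun n => by
    rintro _ ⟨x, rfl⟩
    exact ⟨_, hι n x⟩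
  have bdd : ∀ s : Set U, s.Finite → ∃ n, s ⊆ (ι n).range := by
    intro s hs
    induction s, hs using Set.Finite.induction_on with
    | empty => exact ⟨0, by simp⟩
    | @insert z s _ _ ih =>
      obtain ⟨n, hn⟩ := ih
      obtain ⟨m, x, rfl⟩ := hsurj z
      exact ⟨max m n, Set.insert_subset (mono (le_max_left m n) ⟨x, rfl⟩)
        fun w hw => mono (le_max_right m n) (hn hw)⟩
  refine ⟨U, inferInstance, ?_, fun s => ?_, fun H _ _ => ?_, fun H K hH φ => ?_⟩
  · exact Function.Surjective.countable (f := fun z : Σ n, (tw n).G => ι z.1 z.2) fun z =>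
      let ⟨n, x, h⟩ := hsurj z; ⟨⟨n, x⟩, h.symm⟩
  · obtain ⟨n, hn⟩ := bdd _ s.finite_toSet
    exact (Set.finite_range (ι n)).subset ((Subgroup.closure_le _).2 hn)
  · obtain ⟨n, hn⟩ := Nat.exists_eq_succ_of_ne_zero (Nat.card_pos (α := H)).ne'
    let e : H × (tw n).G ≃ (tw n).G × Fin (n + 1) :=
      (Equiv.prodComm _ _).trans (Equiv.prodCongr (Equiv.refl _) (Finite.equivFinOfCardEq hn))
    refine ⟨(ι (n + 1)).comp (e.permCongrHom.toMonoidHom.comp
      (H16.fstHom (MulAction.toPermHom H H) (tw n).G)),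
      (hinj (n + 1)).comp (e.permCongrHom.injective.comp ?_)⟩
    exact (injective_iff_map_eq_one _).2 fun x h => free_reg _ x (1, 1)
      (congrArg (fun π : Perm (H × (tw n).G) => π (1, 1)) h)
  · have : Finite K := Finite.of_equiv _ φ.toEquiv
    obtain ⟨n, hn⟩ := bdd _ ((Set.toFinite (H : Set U)).union (Set.toFinite (K : Set U)))
    have lift : ∀ r : H →* U, Function.Injective r → (∀ h, r h ∈ (ι n).range) →
        ∃ ρ : H →* Perm ((tw n).G × Fin (n + 1)), (∀ s x, ρ s x = x ↔ s ∈ (⊥ : Subgroup H)) ∧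
          ∀ h, ι (n + 1) (ρ h) = r h := by
      intro r h1 h2
      let r' : H →* (tw n).G :=
        (MonoidHom.ofInjective (hinj n)).symm.toMonoidHom.comp (r.codRestrict _ h2)
      have h3 : ∀ h, ι n (r' h) = r h := fun h => MonoidHom.apply_ofInjective_symm (hinj n) _
      refine ⟨(tf n).comp r', fun s x => ⟨fun h => h1 ?_, fun h => ?_⟩,
        fun h => (hι n _).trans (h3 h)⟩
      · rw [← h3, free_reg _ (r' s) x h, map_one, map_one]
      · rw [Subgroup.mem_bot.1 h, map_one]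
        rfl
    obtain ⟨ρ, a1, a2⟩ := lift H.subtype Subtype.val_injective fun h => hn (Or.inl h.2)
    obtain ⟨σ, b1, b2⟩ := lift (K.subtype.comp φ.toMonoidHom)
      (Subtype.val_injective.comp φ.injective) fun h => hn (Or.inr (φ h).2)
    obtain ⟨ψ, hψ, -⟩ := H16.exists_matching (ι := Empty) _ ρ σ a1 b1 rfl Empty.elim Empty.elim
      (fun i => i.elim) (fun i => i.elim)
    refine ⟨ι (n + 1) ψ, fun h => ?_⟩
    have e : (ψ : Perm _) * ρ h = σ h * ψ := Equiv.ext (hψ h)
    have e' : ι (n + 1) ψ * ι (n + 1) (ρ h) = ι (n + 1) (σ h) * ι (n + 1) ψ :=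
      (map_mul _ _ _).symm.trans ((congrArg (ι (n + 1)) e).trans (map_mul _ _ _))
    rw [a2, b2] at e'
    exact eq_mul_inv_of_mul_eq e'.symm

end Pool.Agent.P.MP_5e147a_al.H31
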