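import Pool.Agent.P.MP_5e147a_al.H16.Base

/-! Tokens and levels for two arbitrary primes. -/

set_option autoImplicit false

namespace Pool.Agent.P.MP_5e147a_al.H31

open Equiv Multiplicative
open H16 hiding Tok exists_tok uA vB lA lB uA_main vB_main lA_main lB_main Main Main' main_A main_B
  main_j lA_nonmain lB_nonmain nuA nuB W2 W2_j Wm morMain morMain_inj Z0 W3 fix_nonmain morDeep
  morDeep_inj LiftData side equalize Alpha glue solve alpha_of exists_odo exists_alpha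

variable {A B : Type} [Group A] [Group B] {pa pb : ℕ}

/-- A token system following a wall. -/
structure Tok (pa pb : ℕ) (W : Wall A B) where
  T : Type
  fin : Finite T
  u : Multiplicative (W.X × Bool → ZMod pa) →* Perm T
  v : Multiplicative (W.X × Bool → ZMod pb) →* Perm T
  tx : W.X → T
  ty : W.Y → T
  m : W.X × Bool → T
  txA : ∀ x ξ, tx (W.ρA x ξ) = tx ξ
  tx_inj : ∀ ξ ξ', tx ξ' = tx ξ → ∃ x, ξ' = W.ρA x ξ
  tyB : ∀ y η, ty (W.ρB y η) = ty η
  m_inj : Function.Injective m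
  hu : ∀ e w, w e = 1 → (∀ e', W.sameA e e' → e' ≠ e → w e' = 0) →
    u (Multiplicative.ofAdd w) (tx e.1) = m e
  hv : ∀ e w, w e = 1 → (∀ e', W.sameB e e' → e' ≠ e → w e' = 0) →
    v (Multiplicative.ofAdd w) (m e) = ty (W.j e.2 e.1)

instance {W : Wall A B} (t : Tok pa pb W) : Finite t.T := t.fin

theorem exists_tok (pa pb : ℕ) [Fact pa.Prime] [Fact pb.Prime] (W : Wall A B) : Nonempty (Tok pa pb W) := by
  classical
  let E := W.X × Bool
  let fa : W.X → Set W.X := fun ξ => Set.range fun x => W.ρA x ξ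
  let fb : W.Y → Set W.Y := fun η => Set.range fun y => W.ρB y η
  let xf : E → Set W.X := fun e => fa e.1
  let yf : E → Set W.Y := fun e => fb (W.j e.2 e.1)
  let T := (Set W.X × (E → ZMod pa)) ⊕ (Set W.Y × (E → ZMod pb))
  let mA : E → T := fun e => Sum.inl (xf e, Pi.single e 1)
  let mB : E → T := fun e => Sum.inr (yf e, -Pi.single e 1)
  let c : Set W.Y → T := fun y => Sum.inr (y, 0)
  have hmA : Function.Injective mA := by
    intro e e' h
    have h1 : (Pi.single e 1 : E → ZMod pa) = Pi.single e' 1 :=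
      (Prod.ext_iff.1 (Sum.inl.inj h)).2
    by_contra hne
    have := congrFun h1 e
    rw [Pi.single_eq_same, Pi.single_eq_of_ne hne] at this
    exact one_ne_zero this
  have hmB : Function.Injective mB := by
    intro e e' h
    have h1 : (-Pi.single e 1 : E → ZMod pb) = -Pi.single e' 1 :=
      (Prod.ext_iff.1 (Sum.inr.inj h)).2
    by_contra hne
    have := congrFun (neg_injective h1) e
    rw [Pi.single_eq_same, Pi.single_eq_of_ne hne] at this
    exact one_ne_zero this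
  have hc : Function.Injective c := fun y y' h => (Prod.ext_iff.1 (Sum.inr.inj h)).1
  have i1 : Function.Injective (Sum.elim mA c) := by
    refine hmA.sumElim hc ?_
    intro e y h
    exact Sum.inl_ne_inr h
  have i2 : Function.Injective (Sum.elim mB c) := by
    refine hmB.sumElim hc ?_
    intro e y h
    have h1 : (-Pi.single e 1 : E → ZMod pb) = 0 := (Prod.ext_iff.1 (Sum.inr.inj h)).2
    have := congrFun h1 e
    rw [Pi.neg_apply, Pi.single_eq_same, Pi.zero_apply] at this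
    exact one_ne_zero (neg_eq_zero.1 this)
  obtain ⟨σ, hσ⟩ := Perm.exists_extending_pair (f := Sum.elim mA c) (g := Sum.elim mB c) i1 i2
  have hσ1 : ∀ e, σ (mA e) = mB e := fun e => hσ (Sum.inl e)
  have hσ2 : ∀ y, σ (c y) = c y := fun y => hσ (Sum.inr y)
  let u : Multiplicative (E → ZMod pa) →* Perm T :=
    (Perm.sumCongrHom _ _).comp ((MonoidHom.inl _ _).comp (cube xf))
  let v0 : Multiplicative (E → ZMod pb) →* Perm T :=
    (Perm.sumCongrHom _ _).comp ((MonoidHom.inr _ _).comp (cube yf))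
  refine ⟨⟨T, inferInstance, u, (MulAut.conj σ⁻¹).toMonoidHom.comp v0,
    fun ξ => Sum.inl (fa ξ, 0), fun η => c (fb η), mA, ?_, ?_, ?_, hmA, ?_, ?_⟩⟩
  · intro x ξ
    have : fa (W.ρA x ξ) = fa ξ := (orb_eq W.ρA _ _).2 ⟨x, rfl⟩
    rw [this]
  · intro ξ ξ' h
    exact (orb_eq W.ρA _ _).1 (Prod.ext_iff.1 (Sum.inl.inj h)).1
  · intro y η
    have : fb (W.ρB y η) = fb η := (orb_eq W.ρB _ _).2 ⟨y, rfl⟩
    rw [this]
  · intro e w h1 h2
    show (Sum.inl (cube xf (Multiplicative.ofAdd w) (fa e.1, 0)) : T) = mA e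
    rw [cube_apply]
    refine congrArg Sum.inl (Prod.ext rfl (funext fun e' => ?_))
    show (0 : ZMod pa) + (if xf e' = fa e.1 then w e' else 0) = (Pi.single e 1 : E → ZMod pa) e'
    by_cases he : e' = e
    · subst he
      rw [if_pos rfl, h1, Pi.single_eq_same, zero_add]
    · rw [Pi.single_eq_of_ne he, zero_add]
      split_ifs with h3
      · exact h2 e' ((orb_eq W.ρA _ _).1 h3) he
      · rfl
  · intro e w h1 h2
    show σ⁻¹ (v0 (Multiplicative.ofAdd w) (σ⁻¹⁻¹ (mA e))) = c (fb (W.j e.2 e.1))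
    rw [inv_inv, hσ1, Perm.inv_eq_iff_eq, hσ2]
    show (Sum.inr (cube yf (Multiplicative.ofAdd w) (yf e, -Pi.single e 1)) : T) = _
    rw [cube_apply]
    refine congrArg Sum.inr (Prod.ext rfl (funext fun e' => ?_))
    show -(Pi.single e 1 : E → ZMod pb) e' + (if yf e' = yf e then w e' else 0) = 0
    by_cases he : e' = e
    · subst he
      rw [if_pos rfl, h1, Pi.single_eq_same, neg_add_cancel]
    · rw [Pi.single_eq_of_ne he, neg_zero, zero_add]
      split_ifs with h3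
      · exact h2 e' ((orb_eq W.ρB _ _).1 h3) he
      · rfl

section level
variable {W P : Wall A B} (c : Cls W) (π : Mor P W) (t : Tok pa pb P)

noncomputable def uA (c0 : c.CA) : Perm t.T := t.u (ofAdd fun e => ind _ (c.cA (π.e e) = c0))
noncomputable def vB (c0 : c.CB) : Perm t.T := t.v (ofAdd fun e => ind _ (c.cB (π.e e) = c0))
noncomputable def lA (c0 : c.CA) (τ : t.T) : P.X × Bool → ZMod pa :=
  fun e => ind _ (c.cA (π.e e) = c0 ∧ τ = t.tx e.1)
noncomputable def lB (c0 : c.CB) (τ : t.T) : P.X × Bool → ZMod pb :=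
  fun e => ind _ (c.cB (π.e e) = c0 ∧ τ = t.m e)

theorem uA_main (e : P.X × Bool) : uA c π t (c.cA (π.e e)) (t.tx e.1) = t.m e :=
  t.hu e _ (ind_pos rfl) fun _ h hne =>
    ind_neg fun h' => hne (π.injA h (c.injA _ _ (π.sameA h) h'))

theorem vB_main (e : P.X × Bool) : vB c π t (c.cB (π.e e)) (t.m e) = t.ty (P.j e.2 e.1) :=
  t.hv e _ (ind_pos rfl) fun _ h hne =>
    ind_neg fun h' => hne (π.injB h (c.injB _ _ (π.sameB h) h'))

theorem lA_main (e : P.X × Bool) :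
    lA c π t (c.cA (π.e e)) (t.tx e.1) = fun e' => ind _ (e' = e) := by
  funext e'
  by_cases h : e' = e
  · subst h
    rw [ind_pos rfl]
    exact ind_pos ⟨rfl, rfl⟩
  · rw [ind_neg h]
    refine ind_neg fun ⟨h1, h2⟩ => h ?_
    have h3 : P.sameA e e' := t.tx_inj _ _ h2.symm
    exact π.injA h3 (c.injA _ _ (π.sameA h3) h1)

theorem lB_main (e : P.X × Bool) :
    lB c π t (c.cB (π.e e)) (t.m e) = fun e' => ind _ (e' = e) := by
  funext e'
  by_cases h : e' = e
  · subst h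
    rw [ind_pos rfl]
    exact ind_pos ⟨rfl, rfl⟩
  · rw [ind_neg h]
    exact ind_neg fun ⟨_, h2⟩ => h (t.m_inj h2).symm

def Main (ξ : W.X) (τ : t.T) : Prop := ∃ q, ξ = π.f q ∧ τ = t.tx q
def Main' (η : W.Y) (τ : t.T) : Prop := ∃ q, η = π.f' q ∧ τ = t.ty q

theorem main_A (x : A) (ξ : W.X) (τ : t.T) : Main π t (W.ρA x ξ) τ ↔ Main π t ξ τ := by
  constructor
  · rintro ⟨q, h1, h2⟩
    refine ⟨P.ρA x⁻¹ q, ?_, by rw [t.txA, h2]⟩
    rw [π.hA, ← h1]
    simp
  · rintro ⟨q, h1, h2⟩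
    exact ⟨P.ρA x q, by rw [π.hA, h1], by rw [t.txA, h2]⟩

theorem main_B (y : B) (η : W.Y) (τ : t.T) : Main' π t (W.ρB y η) τ ↔ Main' π t η τ := by
  constructor
  · rintro ⟨q, h1, h2⟩
    refine ⟨P.ρB y⁻¹ q, ?_, by rw [t.tyB, h2]⟩
    rw [π.hB, ← h1]
    simp
  · rintro ⟨q, h1, h2⟩
    exact ⟨P.ρB y q, by rw [π.hB, h1], by rw [t.tyB, h2]⟩

theorem main_j (i : Bool) (ξ : W.X) (τ : t.T) :
    Main' π t (W.j i ξ) (vB c π t (c.cB (ξ, i)) (uA c π t (c.cA (ξ, i)) τ)) ↔ Main π t ξ τ := by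
  constructor
  · rintro ⟨q', h1, h2⟩
    obtain ⟨q, rfl⟩ := (P.j i).surjective q'
    rw [π.hj] at h1
    have h3 := (W.j i).injective h1
    subst h3
    refine ⟨q, rfl, ?_⟩
    have h4 := vB_main c π t (q, i)
    rw [← uA_main c π t (q, i)] at h4
    exact (uA c π t _).injective ((vB c π t _).injective (h2.trans h4.symm))
  · rintro ⟨q, rfl, rfl⟩
    refine ⟨P.j i q, (π.hj i q).symm, ?_⟩
    have h4 := vB_main c π t (q, i)
    rw [← uA_main c π t (q, i)] at h4
    exact h4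

theorem lA_nonmain (h : Function.Injective c.cA) (i : Bool) (ξ : W.X) (τ : t.T)
    (hn : ¬Main π t ξ τ) : lA c π t (c.cA (ξ, i)) τ = 0 := by
  funext e
  refine ind_neg fun ⟨h1, h2⟩ => hn ⟨e.1, ?_, h2⟩
  exact (congrArg Prod.fst (h h1)).symm

theorem lB_nonmain (h : Function.Injective c.cB) (i : Bool) (ξ : W.X) (τ : t.T)
    (hn : ¬Main π t ξ τ) : lB c π t (c.cB (ξ, i)) (uA c π t (c.cA (ξ, i)) τ) = 0 := by
  funext e
  refine ind_neg fun ⟨h1, h2⟩ => hn ⟨e.1, (congrArg Prod.fst (h h1)).symm, ?_⟩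
  rw [← h h1, ← uA_main c π t e] at h2
  exact (uA c π t _).injective h2

variable {Z : Type} [Finite Z] (φA : Multiplicative (P.X × Bool → ZMod pa) →* Perm Z)
  (φB : Multiplicative (P.X × Bool → ZMod pb) →* Perm Z)

noncomputable def nuA (c0 : c.CA) : Perm (t.T × Z) :=
  Equiv.prodShear (uA c π t c0) fun τ => φA (ofAdd (lA c π t c0 τ))
noncomputable def nuB (c0 : c.CB) : Perm (t.T × Z) :=
  Equiv.prodShear (vB c π t c0) fun τ => φB (ofAdd (lB c π t c0 τ))

/-- The two level lift. -/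
noncomputable def W2 : Wall A B :=
  W.lift (t.T × Z) fun e => nuB c π t φB (c.cB e) * nuA c π t φA (c.cA e)

theorem W2_j (i : Bool) (ξ : W.X) (τ : t.T) (z : Z) :
    (W2 c π t φA φB).j i (ξ, τ, z) = (W.j i ξ, vB c π t (c.cB (ξ, i)) (uA c π t (c.cA (ξ, i)) τ),
      φB (ofAdd (lB c π t (c.cB (ξ, i)) (uA c π t (c.cA (ξ, i)) τ)))
        (φA (ofAdd (lA c π t (c.cA (ξ, i)) τ)) z)) := rfl

/-- The intrinsic model. -/
noncomputable def Wm : Wall A B :=
  P.lift Z fun e => φB (ofAdd fun e' => ind _ (e' = e)) * φA (ofAdd fun e' => ind _ (e' = e))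

noncomputable def morMain : Mor (Wm φA φB) (W2 c π t φA φB) where
  f := fun z => (π.f z.1, t.tx z.1, z.2)
  f' := fun z => (π.f' z.1, t.ty z.1, z.2)
  hA := by
    rintro x ⟨q, z⟩
    show (π.f (P.ρA x q), t.tx (P.ρA x q), z) = (W.ρA x (π.f q), t.tx q, z)
    rw [π.hA, t.txA]
  hB := by
    rintro y ⟨q, z⟩
    show (π.f' (P.ρB y q), t.ty (P.ρB y q), z) = (W.ρB y (π.f' q), t.ty q, z)
    rw [π.hB, t.tyB]
  hj := by
    rintro i ⟨q, z⟩
    show _ = (W2 c π t φA φB).j i (π.f q, t.tx q, z)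
    rw [W2_j]
    have h1 := uA_main c π t (q, i)
    have h2 := vB_main c π t (q, i)
    have h3 := lA_main c π t (q, i)
    have h4 := lB_main c π t (q, i)
    simp only [Mor.e] at h1 h2 h3 h4
    rw [h1, h2, h3, h4, ← π.hj]
    rfl

theorem morMain_inj : Function.Injective (morMain c π t φA φB).f := by
  rintro ⟨q, z⟩ ⟨q', z'⟩ h
  have h1 : π.f q = π.f q' := congrArg Prod.fst h
  have h2 : t.tx q = t.tx q' := congrArg (fun w => w.2.1) h
  have h3 : z = z' := congrArg (fun w => w.2.2) h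
  have h4 := π.injA (e := (q', true)) (e' := (q, true)) (t.tx_inj _ _ h2) (Prod.ext h1 rfl)
  exact Prod.ext (Prod.ext_iff.1 h4).1 h3

/-- The abelian second level. -/
abbrev Z0 (pa pb : ℕ) (P : Wall A B) : Type :=
  Multiplicative (P.X × Bool → ZMod pa) × Multiplicative (P.X × Bool → ZMod pb)

variable [Fact pa.Prime] [Fact pb.Prime]

noncomputable def W3 : Wall A B :=
  W2 c π t ((MulAction.toPermHom (Z0 pa pb P) (Z0 pa pb P)).comp (MonoidHom.inl _ _))
    ((MulAction.toPermHom (Z0 pa pb P) (Z0 pa pb P)).comp (MonoidHom.inr _ _))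

theorem fix_nonmain (s : SG A B) (hs : s ∈ (W3 c π t).act.ker) (ξ : W.X) (τ : t.T) (z : Z)
    (hn : ¬Main π t ξ τ) : (W2 c π t φA φB).act s (ξ, τ, z) = (ξ, τ, z) := by
  have key : ∀ φ : Z0 pa pb P → Z, φ 1 = z →
      (∀ (i : Bool) (ξ : W.X) (τ : t.T) (w : Z0 pa pb P), ¬Main π t ξ τ →
        φ ((1, ofAdd (lB c π t (c.cB (ξ, i)) (uA c π t (c.cA (ξ, i)) τ))) *
          ((ofAdd (lA c π t (c.cA (ξ, i)) τ), 1) * w)) =
        φB (ofAdd (lB c π t (c.cB (ξ, i)) (uA c π t (c.cA (ξ, i)) τ)))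
          (φA (ofAdd (lA c π t (c.cA (ξ, i)) τ)) (φ w))) →
      (W2 c π t φA φB).act s (ξ, τ, z) = (ξ, τ, z) := by
    intro φ h1 h2
    have := (Wall.equivariant_on (W3 c π t) (W2 c π t φA φB)
      (fun w => ¬Main π t w.1 w.2.1) (fun w => ¬Main' π t w.1 w.2.1)
      (fun w => (w.1, w.2.1, φ w.2.2)) (fun w => (w.1, w.2.1, φ w.2.2))
      (fun x ⟨ξ, τ, _⟩ => not_congr (main_A π t x ξ τ))
      (fun y ⟨η, τ, _⟩ => not_congr (main_B π t y η τ))
      (fun i ⟨ξ, τ, _⟩ => not_congr (main_j c π t i ξ τ))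
      (fun _ _ _ => rfl) (fun _ _ _ => rfl)
      (fun i ⟨ξ, τ, w⟩ hw => by
        show _ = (W2 c π t φA φB).j i (ξ, τ, φ w)
        rw [W2_j, ← h2 i ξ τ w hw]
        rfl) s).2 (ξ, τ, 1) hn
    rw [MonoidHom.mem_ker.1 hs] at this
    rw [← h1]
    exact this.symm
  rcases c.alt with h | h
  · refine key (fun w => φB w.2 z) (by simp) fun i ξ τ w hw => ?_
    rw [lA_nonmain c π t h i ξ τ hw]
    simp
  · refine key (fun w => φA w.1 z) (by simp) fun i ξ τ w hw => ?_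
    rw [lB_nonmain c π t h i ξ τ hw]
    simp

end level

/-- The deep regular wall embeds in the model. -/
noncomputable def morDeep {P Q : Wall A B} (ϖ : Mor Q P) (t : Tok pa pb Q) :
    Mor Q (Wm (t.u.comp (pull ϖ.e)) (t.v.comp (pull ϖ.e))) where
  f := fun q => (ϖ.f q, t.tx q)
  f' := fun q => (ϖ.f' q, t.ty q)
  hA := by
    intro x q
    show _ = (P.ρA x (ϖ.f q), t.tx q)
    rw [ϖ.hA, t.txA]
  hB := by
    intro y q
    show _ = (P.ρB y (ϖ.f' q), t.ty q)
    rw [ϖ.hB, t.tyB]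
  hj := by
    intro i q
    have h1 : t.u (ofAdd fun e' => ind _ (ϖ.e e' = (ϖ.f q, i))) (t.tx q) = t.m (q, i) :=
      t.hu (q, i) _ (ind_pos rfl) fun _ h hne => ind_neg fun h' => hne (ϖ.injA h h')
    have h2 : t.v (ofAdd fun e' => ind _ (ϖ.e e' = (ϖ.f q, i))) (t.m (q, i)) = t.ty (Q.j i q) :=
      t.hv (q, i) _ (ind_pos rfl) fun _ h hne => ind_neg fun h' => hne (ϖ.injB h h')
    show _ = (P.j i (ϖ.f q), t.v (ofAdd fun e' => ind _ (ϖ.e e' = (ϖ.f q, i)))
      (t.u (ofAdd fun e' => ind _ (ϖ.e e' = (ϖ.f q, i))) (t.tx q)))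
    rw [h1, h2, ϖ.hj]

theorem morDeep_inj {P Q : Wall A B} (ϖ : Mor Q P) (t : Tok pa pb Q) :
    Function.Injective (morDeep ϖ t).f := by
  intro q q' h
  have h1 : ϖ.f q = ϖ.f q' := congrArg Prod.fst h
  have h2 : t.tx q = t.tx q' := congrArg Prod.snd h
  have h4 := ϖ.injA (e := (q', true)) (e' := (q, true)) (t.tx_inj _ _ h2) (Prod.ext h1 rfl)
  exact congrArg Prod.fst h4

end Pool.Agent.P.MP_5e147a_al.H31
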