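import Pool.Agent.P.MP_5e147a_al.H31.Equal

/-! Both sides of the wall are of the same kind. -/

set_option autoImplicit false

namespace Pool.Agent.P.MP_5e147a_al.H31

open Equiv Sum
open H16 hiding Tok exists_tok uA vB lA lB uA_main vB_main lA_main lB_main Main Main' main_A main_B
  main_j lA_nonmain lB_nonmain nuA nuB W2 W2_j Wm morMain morMain_inj Z0 W3 fix_nonmain morDeep
  morDeep_inj LiftData side equalize Alpha glue solve alpha_of exists_odo exists_alpha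

variable {F : Type} [Group F] {A B : Subgroup F} {pa pb : ℕ}

/-- The side carrying the cells of the second group. -/
structure Alpha (pa pb : ℕ) (g : F) (W : Wall A B) where
  Mt : Type
  fin : Finite Mt
  ρF : F →* Perm (Mt ⊕ W.X)
  free : ∀ f ω, ρF f ω = ω → f = 1
  ρM : A → Perm Mt
  hM : ∀ (x : A) τ, ρF x (inl τ) = inl (ρM x τ)
  hX : ∀ (x : A) ξ, ρF x (inr ξ) = inr (W.ρA x ξ)
  aM : Perm Mt
  pM : PG pa ρM aM
  b : Perm ((Mt ⊕ W.X) ⊕ W.Y)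
  b1 : ∀ τ, b (inl (inl (aM τ))) = inl (ρF g (inl τ))
  b2 : ∀ ξ, b (inl (inr ξ)) = inr (W.j false ξ)
  b3 : ∀ ξ, b (inr (W.j true ξ)) = inl (ρF g (inr ξ))
  pQ : PG pb (fun y : B => Perm.sumCongr (ρF y) (W.ρB y)) b

/-- The wall seen from the other side. -/
def swp {A B : Type} [Group A] [Group B] (V : Wall B A) : Wall A B where
  X := V.Y
  Y := V.X
  fin := inferInstance
  ρA := V.ρB
  ρB := V.ρA
  j i := (V.j (!i)).symm
  freeA := V.freeB
  freeB := V.freeA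

def swe {A B : Type} [Group A] [Group B] (V : Wall B A) (e : V.Y × Bool) : V.X × Bool :=
  ((V.j (!e.2)).symm e.1, !e.2)

theorem swe_inj {A B : Type} [Group A] [Group B] (V : Wall B A) : Function.Injective (swe V) := by
  rintro ⟨η, i⟩ ⟨η', i'⟩ h
  obtain rfl : i = i' := Bool.not_inj (Prod.ext_iff.1 h).2
  exact Prod.ext ((V.j (!i)).symm.injective (Prod.ext_iff.1 h).1) rfl

def swc {A B : Type} [Group A] [Group B] {V : Wall B A} (c : Cls V) : Cls (swp V) where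
  CA := c.CB
  CB := c.CA
  cA e := c.cB (swe V e)
  cB e := c.cA (swe V e)
  injA := fun e e' ⟨x, hx⟩ h => swe_inj V (c.injB _ _ ⟨x, by
    simp only [swe, Equiv.apply_symm_apply]
    exact hx⟩ h)
  injB := fun _ _ hx h => swe_inj V (c.injA _ _ hx h)
  alt := c.alt.symm.imp (fun h => h.comp (swe_inj V)) fun h => h.comp (swe_inj V)

def swl {A B : Type} [Group A] [Group B] {V : Wall B A} {c : Cls V}
    (L : LiftData pa pb (swc c)) : LiftData pb pa c where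
  G := L.G
  fin := L.fin
  DA := L.DB
  DB := L.DA
  νA c0 := (L.νB c0)⁻¹
  νB c0 := (L.νA c0)⁻¹
  hDA := L.hDB
  hDB := L.hDA
  hνA c0 := L.DB.inv_mem (L.hνB c0)
  hνB c0 := L.DA.inv_mem (L.hνA c0)

theorem PG_inv {p : ℕ} {A Z : Type} {ρ : A → Perm Z} {a : Perm Z} (h : PG p ρ a) : PG p ρ a⁻¹ :=
  let ⟨K, h1, h2, h3⟩ := h
  ⟨K, h1, h2, K.inv_mem h3⟩

theorem glue {g : F} {W : Wall A B} {V : Wall B A} (α : Alpha pa pb g W) (β : Alpha pb pa g⁻¹ V)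
    [Nonempty W.X] (ψ : W.X ≃ V.Y) (ψ' : W.Y ≃ V.X) (hA : ∀ x ξ, ψ (W.ρA x ξ) = V.ρB x (ψ ξ))
    (hB : ∀ y η, ψ' (W.ρB y η) = V.ρA y (ψ' η)) (hj : ∀ i ξ, V.j (!i) (ψ' (W.j i ξ)) = ψ ξ) :
    ∃ (Ω : Type) (_ : Finite Ω) (ρ : F →* Perm Ω) (a b : Perm Ω), Function.Injective ρ ∧
      b * a = ρ g ∧ PG pa (fun x : A => ρ x) a ∧ PG pb (fun y : B => ρ y) b := by
  have := α.fin
  have := β.fin
  let e1 : (α.Mt ⊕ W.X) ⊕ (β.Mt ⊕ V.X) ≃ α.Mt ⊕ ((β.Mt ⊕ V.X) ⊕ V.Y) :=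
    (Equiv.sumAssoc _ _ _).trans (Equiv.sumCongr (Equiv.refl _)
      ((Equiv.sumCongr ψ (Equiv.refl _)).trans (Equiv.sumComm _ _)))
  let e2 : (α.Mt ⊕ W.X) ⊕ (β.Mt ⊕ V.X) ≃ ((α.Mt ⊕ W.X) ⊕ W.Y) ⊕ β.Mt :=
    (Equiv.sumCongr (Equiv.refl _) ((Equiv.sumComm _ _).trans
      (Equiv.sumCongr ψ'.symm (Equiv.refl _)))).trans (Equiv.sumAssoc _ _ _).symm
  let a := e1.symm.permCongr (Perm.sumCongr α.aM β.b⁻¹)
  let b := e2.symm.permCongr (Perm.sumCongr α.b β.aM⁻¹)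
  have ha : ∀ z w, Perm.sumCongr α.aM β.b⁻¹ (e1 z) = e1 w → a z = w := fun z w h =>
    e1.symm_apply_eq.2 h
  have hb : ∀ z w, Perm.sumCongr α.b β.aM⁻¹ (e2 z) = e2 w → b z = w := fun z w h =>
    e2.symm_apply_eq.2 h
  refine ⟨(α.Mt ⊕ W.X) ⊕ (β.Mt ⊕ V.X), inferInstance,
    (Perm.sumCongrHom _ _).comp (α.ρF.prod β.ρF), a, b, ?_, ?_, ?_, ?_⟩
  · rw [injective_iff_map_eq_one]
    intro f hf
    have h := congrArg (fun π : Perm ((α.Mt ⊕ W.X) ⊕ (β.Mt ⊕ V.X)) =>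
      π (inl (inr (Classical.arbitrary W.X)))) hf
    exact α.free f _ (inl.inj h)
  · ext1 z
    rw [Perm.mul_apply]
    rcases z with (τ | ξ) | ω
    · rw [ha _ (inl (inl (α.aM τ))) rfl]
      exact hb _ _ (congrArg inl (α.b1 τ))
    · rw [ha _ (inr (inr (ψ' (W.j true ξ)))) (congrArg inr (Perm.inv_eq_iff_eq.2
        ((β.b2 _).trans (congrArg inr (hj true ξ))).symm))]
      refine hb _ _ (congrArg inl ?_)
      show α.b (inr (ψ'.symm (ψ' (W.j true ξ)))) = _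
      rw [Equiv.symm_apply_apply]
      exact α.b3 ξ
    · obtain ⟨ω, rfl⟩ := (β.ρF g⁻¹).surjective ω
      have e : β.ρF g (β.ρF g⁻¹ ω) = ω := by simp
      show _ = inr (β.ρF g (β.ρF g⁻¹ ω))
      rw [e]
      rcases ω with ν | η
      · rw [ha _ (inr (inl (β.aM ν))) (congrArg inr (Perm.inv_eq_iff_eq.2 (β.b1 ν).symm))]
        exact hb _ _ (congrArg inr (Perm.inv_eq_iff_eq.2 rfl))
      · obtain ⟨η, rfl⟩ := ψ'.surjective η
        obtain ⟨ξ, rfl⟩ := (W.j false).surjective η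
        rw [ha _ (inl (inr ξ)) (congrArg inr (Perm.inv_eq_iff_eq.2
          ((congrArg (fun w => β.b (inr w)) (hj false ξ).symm).trans (β.b3 _)).symm))]
        refine hb _ _ (congrArg inl ?_)
        show _ = inr (ψ'.symm (ψ' (W.j false ξ)))
        rw [Equiv.symm_apply_apply]
        exact α.b2 ξ
  · refine (α.pM.sum (PG_inv β.pQ)).of_equiv e1 ?_ (fun z => e1.apply_symm_apply _)
    intro x z
    rcases z with (τ | ξ) | ω
    · show e1 (inl (α.ρF x (inl τ))) = _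
      rw [α.hM]
      rfl
    · show e1 (inl (α.ρF x (inr ξ))) = _
      rw [α.hX]
      exact congrArg (fun w => inr (inr w)) (hA x ξ)
    · rfl
  · refine (α.pQ.sum (PG_inv β.pM)).of_equiv e2 ?_ (fun z => e2.apply_symm_apply _)
    intro y z
    rcases z with ω | ν | η
    · rfl
    · show e2 (inr (β.ρF y (inl ν))) = _
      rw [β.hM]
      rfl
    · show e2 (inr (β.ρF y (inr η))) = _
      rw [β.hX]
      refine congrArg (fun w => inl (inr w)) (ψ'.symm_apply_eq.2 ?_)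
      rw [hB, Equiv.apply_symm_apply]

theorem Gen_symm {g : F} (h : Gen A B g) : Gen B A g⁻¹ := by
  refine ⟨fun y x f e => ?_, fun y x e => h.h2 x⁻¹ y⁻¹ ?_⟩
  · have e' : (y : F) * f⁻¹ = f⁻¹ * x := by
      rw [mul_inv_eq_iff_eq_mul, mul_assoc, e, inv_mul_cancel_left]
    rw [h.h1 x y f⁻¹ e'] at e'
    exact Subtype.ext (by simpa using e')
  · rw [← inv_inv g, e]
    simp

def Alpha.cls {g : F} {W : Wall A B} (α : Alpha pa pb g W) (h : Gen A B g) : Cls W where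
  CA := Set (α.Mt ⊕ W.X)
  CB := W.X × Bool
  cA e := orb α.ρF B (cond e.2 (α.ρF g (inr e.1)) (inr e.1))
  cB := id
  injA := by
    rintro ⟨ξ, i⟩ ⟨ξ', i'⟩ ⟨x, hx⟩ hc
    obtain ⟨y, hy⟩ := (orb_iff _ _ _ _).1 hc
    dsimp only at hx
    subst hx
    cases i <;> cases i' <;> simp only [cond_true, cond_false, ← α.hX] at hy
    · have := h.h1 x y 1 (by rw [free_eq α.free hy]; simp)
      subst this
      simp
    · exfalso
      rw [← Perm.mul_apply, ← map_mul] at hy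
      exact h.h2 x⁻¹ y (by rw [← free_eq α.free hy]; simp)
    · exfalso
      rw [← Perm.mul_apply, ← map_mul] at hy
      exact h.h2 x y⁻¹ (by rw [free_eq α.free hy]; simp)
    · rw [← Perm.mul_apply, ← map_mul, ← Perm.mul_apply, ← map_mul] at hy
      have := h.h1 x y g (free_eq α.free hy).symm
      subst this
      simp
  injB := fun _ _ _ h => h
  alt := Or.inr Function.injective_id

theorem Alpha.lift [Fact pa.Prime] [Fact pb.Prime] {g : F} {W : Wall A B} (α : Alpha pa pb g W) (h : Gen A B g)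
    (L : LiftData pa pb (α.cls h)) : Nonempty (Alpha pa pb g L.wall) := by
  have := α.fin
  let e0 : (α.Mt × L.G) ⊕ (W.X × L.G) ≃ (α.Mt ⊕ W.X) × L.G := (Equiv.sumProdDistrib _ _ _).symm
  let lam : α.Mt ⊕ W.X → Perm L.G := fun ω => L.νA (orb α.ρF B ω)
  let Θ : ((α.Mt × L.G) ⊕ (W.X × L.G)) ⊕ (W.Y × L.G) ≃ ((α.Mt ⊕ W.X) ⊕ W.Y) × L.G :=
    (Equiv.sumCongr (e0.trans (Equiv.prodShear (Equiv.refl _) lam)) (Equiv.refl _)).trans
      (Equiv.sumProdDistrib _ _ _).symm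
  have hΘ1 : ∀ ω f, Θ (inl (e0.symm (ω, f))) = (inl ω, lam ω f) := by
    intro ω f
    rcases ω with τ | ξ <;> rfl
  have hΘ2 : ∀ η f, Θ (inr (η, f)) = (inr η, f) := fun _ _ => rfl
  let d : (α.Mt ⊕ W.X) ⊕ W.Y → Perm L.G := Sum.elim (Sum.elim (fun _ => 1)
    fun ξ => L.νB (ξ, false)) fun η => (L.νB ((W.j true).symm η, true))⁻¹
  have hd : ∀ z, d z ∈ L.DB := by
    rintro ((τ | ξ) | η)
    · exact L.DB.one_mem
    · exact L.hνB _
    · exact L.DB.inv_mem (L.hνB _)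
  let ρ' : F →* Perm ((α.Mt × L.G) ⊕ (W.X × L.G)) :=
    e0.symm.permCongrHom.toMonoidHom.comp (fstHom α.ρF L.G)
  have hρ' : ∀ f0 ω f, ρ' f0 (e0.symm (ω, f)) = e0.symm (α.ρF f0 ω, f) := by
    intro f0 ω f
    show e0.symm (fstHom α.ρF L.G f0 (e0 (e0.symm (ω, f)))) = _
    rw [Equiv.apply_symm_apply]
    rfl
  let b' : Perm (((α.Mt × L.G) ⊕ (W.X × L.G)) ⊕ (W.Y × L.G)) :=
    Θ.symm.permCongr (Equiv.prodShear α.b d)
  have hb' : ∀ z w, Equiv.prodShear α.b d (Θ z) = Θ w → b' z = w := by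
    intro z w hw
    show Θ.symm (Equiv.prodShear α.b d (Θ z)) = w
    rw [hw, Equiv.symm_apply_apply]
  refine ⟨⟨α.Mt × L.G, inferInstance, ρ', ?_,
    fun x => Equiv.prodCongr (α.ρM x) (Equiv.refl _), ?_, ?_,
    Equiv.prodShear α.aM fun τ => (lam (inl (α.aM τ)))⁻¹ * lam (α.ρF g (inl τ)), ?_,
    b', ?_, ?_, ?_, ?_⟩⟩
  · intro f0 z hz
    obtain ⟨⟨ω, f⟩, rfl⟩ := e0.symm.surjective z
    exact α.free f0 ω (Prod.ext_iff.1 (e0.symm.injective ((hρ' f0 ω f).symm.trans hz))).1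
  · rintro x ⟨τ, f⟩
    refine (hρ' x (inl τ) f).trans ?_
    rw [α.hM]
    rfl
  · rintro x ⟨ξ, f⟩
    refine (hρ' x (inr ξ) f).trans ?_
    rw [α.hX]
    rfl
  · exact α.pM.skew L.hDA (fun _ _ _ => rfl)
      (fun τ => (lam (inl (α.aM τ)))⁻¹ * lam (α.ρF g (inl τ)))
      (fun τ => L.DA.mul_mem (L.DA.inv_mem (L.hνA _)) (L.hνA _)) (fun _ _ => rfl)
  · rintro ⟨τ, f⟩
    apply hb'
    refine Eq.trans ?_ ((congrArg (fun w => Θ (inl w)) (hρ' g (inl τ) f)).trans (hΘ1 _ _)).symm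
    show (α.b (inl (inl (α.aM τ))), lam (inl (α.aM τ))
      ((lam (inl (α.aM τ)))⁻¹ (lam (α.ρF g (inl τ)) f))) = _
    rw [α.b1]
    simp
  · rintro ⟨ξ, f⟩
    apply hb'
    show (α.b (inl (inr ξ)), L.νB (ξ, false) (lam (inr ξ) f)) = _
    rw [α.b2]
    rfl
  · rintro ⟨ξ, f⟩
    apply hb'
    refine Eq.trans ?_ ((congrArg (fun w => Θ (inl w)) (hρ' g (inr ξ) f)).trans (hΘ1 _ _)).symm
    show (α.b (inr (W.j true ξ)), (L.νB ((W.j true).symm (W.j true ξ), true))⁻¹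
      (L.νB (ξ, true) (lam (α.ρF g (inr ξ)) f))) = _
    rw [α.b3]
    simp
  · refine PG.of_equiv (α.pQ.skew L.hDB (ρ' := fun y : B => Equiv.prodCongr
      (Perm.sumCongr (α.ρF y) (W.ρB y)) (Equiv.refl L.G)) (a' := Equiv.prodShear α.b d)
      (fun _ _ _ => rfl) d hd (fun _ _ => rfl)) Θ ?_ ?_
    · rintro y (z | ⟨η, f⟩)
      · obtain ⟨⟨ω, f⟩, rfl⟩ := e0.symm.surjective z
        refine ((congrArg (fun w => Θ (inl w)) (hρ' y ω f)).trans (hΘ1 _ _)).trans ?_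
        refine Eq.trans ?_ (congrArg _ (hΘ1 ω f)).symm
        show (inl (α.ρF y ω), L.νA (orb α.ρF B (α.ρF y ω)) f) = _
        rw [orb_smul]
        rfl
      · rfl
    · intro z
      exact Θ.apply_symm_apply _

theorem solve [Fact pa.Prime] [Fact pb.Prime] {g : F} (h : Gen A B g) {W : Wall A B}
    {V : Wall B A} (α : Alpha pa pb g W) (β : Alpha pb pa g⁻¹ V) [Nonempty W.X] [Nonempty V.X] :
    ∃ (Ω : Type) (_ : Finite Ω) (ρ : F →* Perm Ω) (a b : Perm Ω), Function.Injective ρ ∧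
      b * a = ρ g ∧ PG pa (fun x : A => ρ x) a ∧ PG pb (fun y : B => ρ y) b := by
  have : Nonempty (swp V).X := ⟨V.j true (Classical.arbitrary _)⟩
  obtain ⟨L, L', ψ, hne, hψ⟩ := equalize pa pb W (swp V) (α.cls h) (swc (β.cls (Gen_symm h)))
  obtain ⟨α'⟩ := α.lift h L
  obtain ⟨β'⟩ := β.lift (Gen_symm h) (swl L')
  let ψ' : L.wall.Y ≃ L'.wall.Y := ((L.wall.j true).symm.trans ψ).trans (L'.wall.j true)
  have hj : ∀ i ξ, ψ' (L.wall.j i ξ) = L'.wall.j i (ψ ξ) := by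
    intro i ξ
    cases i
    · have := hψ sT ξ
      rw [Wall.act_sT, Wall.act_sT] at this
      show L'.wall.j true (ψ ((L.wall.j true).symm (L.wall.j false ξ))) = _
      rw [this]
      simp
    · simp [ψ']
  have hB : ∀ y η, ψ' (L.wall.ρB y η) = L'.wall.ρB y (ψ' η) := by
    intro y η
    obtain ⟨ξ, rfl⟩ := (L.wall.j true).surjective η
    have := hψ (sB y) ξ
    rw [Wall.act_sB, Wall.act_sB] at this
    rw [hj]
    show L'.wall.j true (ψ ((L.wall.j true).symm (L.wall.ρB y (L.wall.j true ξ)))) = _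
    rw [this]
    simp
  have : Nonempty L.wall.X := inferInstanceAs (Nonempty (W.X × L.G))
  refine glue α' β' ψ ψ' (fun x ξ => hψ (sA x) ξ) hB fun i ξ => ?_
  refine (congrArg ((swl L').wall.j (!i)) (hj i ξ)).trans ?_
  obtain ⟨η, f⟩ := ψ ξ
  refine Prod.ext ((V.j (!i)).apply_symm_apply η) ?_
  show ((L'.νA _)⁻¹ * (L'.νB _)⁻¹) ((L'.νB _ * L'.νA _) f) = f
  rw [← mul_inv_rev]
  exact Perm.inv_eq_iff_eq.2 rfl

end Pool.Agent.P.MP_5e147a_al.H31
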